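import Pool.Agent.H11.T4.Stmts2
import Pool.Agent.H45.T4.SPN

/-!
# Project T4: module SP2 (helper5)
-/

open Finset

namespace Pool.T4

namespace SP2A

open SPN45 C45

variable {n : ℕ}

theorem cobd_congr {b b' : (Fin 2 → Fin n) → ℝ} {t : Fin 3 → Fin n}
    (h : ∀ j : Fin 3, b' (t ∘ j.succAbove) = b (t ∘ j.succAbove)) :
    cobd (k := 1) b' t = cobd (k := 1) b t := by
  have h1 : ∀ c : (Fin 2 → Fin n) → ℝ, cobd (k := 1) c t =
      ∑ j : Fin 3, (-1 : ℝ) ^ (j : ℕ) * c (t ∘ j.succAbove) := fun _ => rfl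
  rw [h1, h1]
  exact Finset.sum_congr rfl fun j _ => by rw [h j]

theorem face_simp {K : AbstractSimplicialComplex (Fin n)} {ρ : Fin 4 → Fin n} (h : ρ ∈ simp K 3)
    (j : Fin 4) : ρ ∘ j.succAbove ∈ simp K 2 := by
  rw [mem_simp] at h
  refine mem_simp.2 ⟨h.1.comp (Fin.strictMono_succAbove j), ?_⟩
  refine (K.isRelLowerSet_faces h.2).2 ?_ ?_
  · intro x hx
    rw [Finset.mem_image] at hx
    obtain ⟨a, -, rfl⟩ := hx
    exact Finset.mem_image_of_mem _ (Finset.mem_univ _)
  · exact Finset.Nonempty.image Finset.univ_nonempty _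

/-- prescribed coboundary on the matched triangles -/
theorem step1r (z : (Fin 3 → Fin n) → ℝ) (rkE : (Fin 2 → Fin n) → ℕ)
    (tE : (Fin 2 → Fin n) → (Fin 3 → Fin n))
    (h : ∀ e, rkE e ≠ 0 → (∃! j : Fin 3, tE e ∘ j.succAbove = e) ∧
      ∀ j : Fin 3, tE e ∘ j.succAbove ≠ e → rkE (tE e ∘ j.succAbove) < rkE e) (k : ℕ) :
    ∃ b : (Fin 2 → Fin n) → ℝ, ∀ e, rkE e ≠ 0 → rkE e ≤ k → cobd (k := 1) b (tE e) = z (tE e) := by
  classical
  induction k with
  | zero => exact ⟨0, fun e h1 h2 => absurd (Nat.le_zero.1 h2) h1⟩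
  | succ k ih =>
    obtain ⟨b, hb⟩ := ih
    refine ⟨fun e => if rkE e = k + 1 then b e + (z (tE e) - cobd (k := 1) b (tE e)) / inc e (tE e) else b e,
      fun e h1 h2 => ?_⟩
    obtain ⟨hu, hl⟩ := h e h1
    by_cases he : rkE e = k + 1
    · rw [cobd_congr (b := Function.update b e (b e + (z (tE e) - cobd (k := 1) b (tE e)) / inc e (tE e)))
        (t := tE e) (fun j => ?_), cobd_update, div_mul_cancel₀ _ (inc_ne hu)]
      · ring
      · by_cases hj : tE e ∘ j.succAbove = e
        · rw [hj, Function.update_self, if_pos he]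
        · rw [Function.update_of_ne hj]
          have := hl j hj
          rw [if_neg (by omega)]
    · rw [cobd_congr (b := b) (t := tE e) (fun j => ?_)]
      · exact hb e h1 (by omega)
      · rw [if_neg]
        by_cases hj : tE e ∘ j.succAbove = e
        · rw [hj]
          exact he
        · have := hl j hj
          omega

end SP2A

open SP2A SPN45 C45 in
theorem sp2 : SP2Stmt := by
  classical
  intro n K N y T rkE tE rkT h1 h2 h3 h4 z hz
  obtain ⟨b, hb⟩ := step1r z rkE tE (fun e he => (h3 e he).2) (Finset.univ.sup rkE)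
  have hb' : ∀ e, rkE e ≠ 0 → cobd (k := 1) b (tE e) = z (tE e) :=
    fun e he => hb e he (Finset.le_sup (Finset.mem_univ e))
  refine ⟨fun i => z (T i) - cobd (k := 1) b (T i), b, ?_⟩
  obtain ⟨c, hc⟩ : ∃ c : Fin N → ℝ, c = fun i => z (T i) - cobd (k := 1) b (T i) := ⟨_, rfl⟩
  rw [← hc]
  obtain ⟨w, hw⟩ : ∃ w : (Fin 3 → Fin n) → ℝ,
      w = fun t => z t - ∑ i, c i * y i t - cobd (k := 1) b t := ⟨_, rfl⟩
  have hwT : ∀ i, w (T i) = 0 := by
    intro i
    rw [hw]
    simp only
    have : ∑ j, c j * y j (T i) = c i := by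
      simp only [h2]
      simp
    rw [this, hc]
    ring
  have hwP : ∀ e, rkE e ≠ 0 → w (tE e) = 0 := by
    intro e he
    rw [hw]
    simp only
    have : ∑ j, c j * y j (tE e) = 0 :=
      Finset.sum_eq_zero fun j _ => by rw [(h3 e he).1 j, mul_zero]
    rw [this, hb' e he]
    ring
  have hwc : IsCocycle (k := 2) K w := by
    intro s hs
    rw [hw, cobd_sub, cobd_sub, cobd_cobd, cobd_sum, hz s hs]
    have : ∑ i, cobd (k := 2) (fun t => c i * y i t) s = 0 :=
      Finset.sum_eq_zero fun i _ => by rw [cobd_smul, h1 i s hs, mul_zero]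
    rw [this]
    ring
  have key : ∀ m : ℕ, ∀ t ∈ simp K 2, rkT t = m → w t = 0 := by
    intro m
    induction m using Nat.strong_induction_on with
    | _ m ih =>
      intro t ht hm
      rcases h4 t ht with ⟨i, hi⟩ | ⟨e, he, hi⟩ | ⟨ρ, hρ, j0, hj0, hlt⟩
      · rw [← hi, hwT]
      · rw [← hi, hwP e he]
      · have hcoc := hwc _ hρ
        have hex : cobd (k := 2) w ρ = ∑ j : Fin 4, (-1 : ℝ) ^ (j : ℕ) * w (ρ ∘ j.succAbove) := rfl
        rw [hex, Finset.sum_eq_single j0] at hcoc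
        · rw [hj0] at hcoc
          rcases mul_eq_zero.1 hcoc with h | h
          · exact absurd h (pow_ne_zero _ (by norm_num))
          · exact h
        · intro j _ hj
          rw [ih _ (by rw [← hm]; exact hlt j hj) _ (face_simp hρ j) rfl, mul_zero]
        · intro h
          exact absurd (Finset.mem_univ j0) h
  intro t ht
  have hwt := key _ t ht rfl
  rw [hw] at hwt
  simp only at hwt
  linarith

end Pool.T4
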