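import Pool.Agent.H11.T4.Stmts

open Finset

namespace Pool.T4

theorem alt_tri {n : ℕ} (K : Cx n) (x : (Fin 2 → Fin n) → ℤ) (hx : IsCocycle (k := 1) K x)
    (a b c : Fin n) (hab : a < b) (hbc : b < c) (h : ({a, b, c} : Finset (Fin n)) ∈ K.faces) :
    x ![a, b] + x ![b, c] = x ![a, c] := by
  have hs : (![a, b, c] : Fin 3 → Fin n) ∈ simp K 2 := by
    classical
    unfold Pool.T4.simp
    refine Finset.mem_filter.2 ⟨Finset.mem_univ _, ?_, ?_⟩
    · intro i j hij
      fin_cases i <;> fin_cases j <;> simp at hij ⊢
      · exact hab
      · exact hab.trans hbc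
      · exact hbc
    · have : Finset.univ.image (![a, b, c] : Fin 3 → Fin n) = {a, b, c} := by
        ext y
        simp only [Finset.mem_image, Finset.mem_univ, true_and, Finset.mem_insert,
          Finset.mem_singleton]
        constructor
        · rintro ⟨i, rfl⟩
          fin_cases i <;> simp
        · rintro (rfl | rfl | rfl)
          · exact ⟨0, rfl⟩
          · exact ⟨1, rfl⟩
          · exact ⟨2, rfl⟩
      rw [this]
      exact h
  have h1 := hx _ hs
  unfold cobd at h1
  rw [Fin.sum_univ_three] at h1
  have e0 : (![a, b, c] : Fin 3 → Fin n) ∘ (0 : Fin 3).succAbove = ![b, c] := by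
    funext i
    fin_cases i <;> rfl
  have e1 : (![a, b, c] : Fin 3 → Fin n) ∘ (1 : Fin 3).succAbove = ![a, c] := by
    funext i
    fin_cases i <;> rfl
  have e2 : (![a, b, c] : Fin 3 → Fin n) ∘ (2 : Fin 3).succAbove = ![a, b] := by
    funext i
    fin_cases i <;> rfl
  rw [e0, e1, e2] at h1
  simp at h1
  linarith

theorem alt_stmt : ALTStmt := by
  intro n K x hx u v w h
  have perm : ∀ a b c : Fin n, (a = u ∨ a = v ∨ a = w) → (b = u ∨ b = v ∨ b = w) →
      (c = u ∨ c = v ∨ c = w) → (u = a ∨ u = b ∨ u = c) → (v = a ∨ v = b ∨ v = c) →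
      (w = a ∨ w = b ∨ w = c) → ({a, b, c} : Finset (Fin n)) ∈ K.faces := by
    intro a b c ha hb hc hu hv hw
    have : ({a, b, c} : Finset (Fin n)) = {u, v, w} := by
      ext y
      simp only [Finset.mem_insert, Finset.mem_singleton]
      constructor
      · rintro (rfl | rfl | rfl)
        · exact ha
        · exact hb
        · exact hc
      · rintro (rfl | rfl | rfl)
        · exact hu
        · exact hv
        · exact hw
    rw [this]
    exact h
  unfold Pool.T4.alt
  rcases lt_trichotomy u v with h1 | h1 | h1
  · rcases lt_trichotomy v w with h2 | h2 | h2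
    · have := alt_tri K x hx u v w h1 h2 h
      have h3 := h1.trans h2
      simp only [h1, h2, h3, if_true]
      exact this
    · subst h2
      simp [h1]
    · rcases lt_trichotomy u w with h3 | h3 | h3
      · have := alt_tri K x hx u w v h3 h2 (perm _ _ _ (by simp) (by simp) (by simp) (by simp)
          (by simp) (by simp))
        simp only [h1, h2, h3, if_true, not_lt_of_gt h2, if_false]
        linarith
      · subst h3
        simp [h1, not_lt_of_gt h1]
      · have := alt_tri K x hx w u v h3 h1 (perm _ _ _ (by simp) (by simp) (by simp) (by simp)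
          (by simp) (by simp))
        simp only [h1, h2, h3, if_true, not_lt_of_gt h2, not_lt_of_gt h3, if_false]
        linarith
  · subst h1
    simp
  · rcases lt_trichotomy v w with h2 | h2 | h2
    · rcases lt_trichotomy u w with h3 | h3 | h3
      · have := alt_tri K x hx v u w h1 h3 (perm _ _ _ (by simp) (by simp) (by simp) (by simp)
          (by simp) (by simp))
        simp only [h1, h2, h3, if_true, not_lt_of_gt h1, if_false]
        linarith
      · subst h3
        simp [h1, not_lt_of_gt h1]
      · have := alt_tri K x hx v w u h2 h3 (perm _ _ _ (by simp) (by simp) (by simp) (by simp)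
          (by simp) (by simp))
        simp only [h1, h2, h3, if_true, not_lt_of_gt h1, not_lt_of_gt h3, if_false]
        linarith
    · subst h2
      simp [h1, not_lt_of_gt h1]
    · have := alt_tri K x hx w v u h2 h1 (perm _ _ _ (by simp) (by simp) (by simp) (by simp)
          (by simp) (by simp))
      have h3 := h2.trans h1
      simp only [h1, h2, h3, if_true, not_lt_of_gt h1, not_lt_of_gt h2, not_lt_of_gt h3, if_false]
      linarith

end Pool.T4
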