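import Pool.Agent.H11.T4.Stmts

open Finset

namespace Pool.T4

/-- the point moved towards the vertex `v` -/
noncomputable def cvxPt {n : ℕ} (v : Fin n) (s : ℝ) (p : Fin n → ℝ) : Fin n → ℝ :=
  fun i => (1 - s) * p i + s * (if i = v then 1 else 0)

theorem cvxPt_mem {n : ℕ} (K : Cx n) (v : Fin n) (s : ℝ) (hs0 : 0 ≤ s) (hs1 : s ≤ 1)
    (p : Fin n → ℝ) (hp : p ∈ Geom K) (hv : p v ≠ 0) :
    cvxPt v s p ∈ Geom K ∧ cvxPt v s p v ≠ 0 := by
  obtain ⟨h0, h1, h2⟩ := hp
  have hpv : 0 < p v := lt_of_le_of_ne (h0 v) (Ne.symm hv)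
  have hs1' : 0 ≤ 1 - s := by linarith
  have hvpos : cvxPt v s p v ≠ 0 := by
    unfold cvxPt
    simp only [if_true, mul_one]
    rcases hs0.eq_or_lt with h | h
    · rw [← h]
      simpa using hv
    · have : 0 ≤ (1 - s) * p v := mul_nonneg hs1' hpv.le
      linarith
  refine ⟨⟨?_, ?_, ?_⟩, hvpos⟩
  · intro i
    unfold cvxPt
    have : 0 ≤ (1 - s) * p i := mul_nonneg hs1' (h0 i)
    split_ifs
    · linarith
    · linarith
  · unfold cvxPt
    rw [Finset.sum_add_distrib, ← Finset.mul_sum, h1, ← Finset.mul_sum]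
    simp
  · refine (K.isRelLowerSet_faces h2).2 ?_ ⟨v, by simp [hvpos]⟩
    intro i hi
    rw [Finset.mem_filter] at hi ⊢
    refine ⟨Finset.mem_univ _, fun h => hi.2 ?_⟩
    unfold cvxPt
    have hiv : i ≠ v := fun h' => hv (h' ▸ h)
    rw [h, if_neg hiv]
    ring

/-- the open star as a contractible space -/
theorem cvx_contr {n : ℕ} (K : Cx n) (v : Fin n) (p : Geom K) (hp : p.1 v ≠ 0) :
    ContractibleSpace {p : Geom K // p.1 v ≠ 0} := by
  rw [contractible_iff_id_nullhomotopic]
  have hm := fun (s : ℝ) (h0 : 0 ≤ s) (h1 : s ≤ 1) (q : {p : Geom K // p.1 v ≠ 0}) =>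
    cvxPt_mem K v s h0 h1 q.1.1 q.1.2 q.2
  have h1pt := hm 1 zero_le_one le_rfl ⟨p, hp⟩
  refine ⟨⟨⟨cvxPt v 1 p.1, h1pt.1⟩, h1pt.2⟩, ⟨?_⟩⟩
  refine { toFun := fun z => ⟨⟨cvxPt v z.1.1 z.2.1.1, (hm z.1.1 z.1.2.1 z.1.2.2 z.2).1⟩,
      (hm z.1.1 z.1.2.1 z.1.2.2 z.2).2⟩
           continuous_toFun := ?_
           map_zero_left := ?_
           map_one_left := ?_ }
  · refine Continuous.subtype_mk (Continuous.subtype_mk ?_ _) _
    refine continuous_pi fun i => ?_
    unfold cvxPt
    have c1 : Continuous (fun z : unitInterval × {p : Geom K // p.1 v ≠ 0} => z.1.1) :=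
      continuous_subtype_val.comp continuous_fst
    have c2 : Continuous (fun z : unitInterval × {p : Geom K // p.1 v ≠ 0} => z.2.1.1 i) :=
      (continuous_apply i).comp (continuous_subtype_val.comp
        (continuous_subtype_val.comp continuous_snd))
    exact ((continuous_const.sub c1).mul c2).add (c1.mul continuous_const)
  · intro q
    apply Subtype.ext
    apply Subtype.ext
    funext i
    show (1 - (0 : ℝ)) * q.1.1 i + 0 * _ = q.1.1 i
    ring
  · intro q
    apply Subtype.ext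
    apply Subtype.ext
    funext i
    show (1 - (1 : ℝ)) * q.1.1 i + 1 * _ = (1 - (1 : ℝ)) * p.1 i + 1 * _
    ring

theorem cvx : CVXStmt := by
  intro n K v p q γ γ' h h'
  have hp : p.1 v ≠ 0 := by
    have := h 0
    rwa [γ.source] at this
  have hq : q.1 v ≠ 0 := by
    have := h 1
    rwa [γ.target] at this
  have := cvx_contr K v p hp
  let P : Path (⟨p, hp⟩ : {p : Geom K // p.1 v ≠ 0}) ⟨q, hq⟩ :=
    { toFun := fun t => ⟨γ t, h t⟩
      continuous_toFun := Continuous.subtype_mk γ.continuous _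
      source' := by apply Subtype.ext; exact γ.source
      target' := by apply Subtype.ext; exact γ.target }
  let P' : Path (⟨p, hp⟩ : {p : Geom K // p.1 v ≠ 0}) ⟨q, hq⟩ :=
    { toFun := fun t => ⟨γ' t, h' t⟩
      continuous_toFun := Continuous.subtype_mk γ'.continuous _
      source' := by apply Subtype.ext; exact γ'.source
      target' := by apply Subtype.ext; exact γ'.target }
  have hh : P.Homotopic P' := SimplyConnectedSpace.paths_homotopic P P'
  have hm := hh.map ⟨(Subtype.val : {p : Geom K // p.1 v ≠ 0} → Geom K), continuous_subtype_val⟩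
  have e1 : P.map (⟨(Subtype.val : {p : Geom K // p.1 v ≠ 0} → Geom K),
      continuous_subtype_val⟩ : C(_, _)).continuous = γ := by
    ext t
    rfl
  have e2 : P'.map (⟨(Subtype.val : {p : Geom K // p.1 v ≠ 0} → Geom K),
      continuous_subtype_val⟩ : C(_, _)).continuous = γ' := by
    ext t
    rfl
  rw [e1, e2] at hm
  exact hm

end Pool.T4
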